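import Pool.Agent.Helper21.LeapProof

set_option autoImplicit false

namespace Pool.Agent.Results.MP_4a8fbb_co.Enlarge

open Pool.Agent.Helper21.Leap

/-- Both the regular dodecahedron and the regular icosahedron can be enlarged. -/
theorem result :
    (∀ T : Set E3, IsRegularDodecahedron T → CanBeEnlarged T) ∧
      (∀ T : Set E3, IsRegularIcosahedron T → CanBeEnlarged T) :=
  ⟨dodecahedron_enlarge, icosahedron_enlarge⟩

end Pool.Agent.Results.MP_4a8fbb_co.Enlarge
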